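import Pool.Agent.H6.FN.Targets2

/-!
# Row PAR of fcn_modules: an explicit upper bound for the number of partitions
-/

set_option autoImplicit false

namespace Pool.Agent.H74.FCN

open FI Finset

/-- the number of parts of size `i + 1` -/
def cnt (m : ℕ) (p : m.Partition) (i : Fin m) : ℕ := p.parts.count ((i : ℕ) + 1)

theorem cnt_sum (m : ℕ) (p : m.Partition) : ∑ i : Fin m, ((i : ℕ) + 1) * cnt m p i = m := by
  have h1 : ∑ a ∈ p.parts.toFinset, p.parts.count a • a = m := by
    rw [← Finset.sum_multiset_count]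
    exact p.parts_sum
  have h2 : ∑ a ∈ p.parts.toFinset, p.parts.count a • a =
      ∑ a ∈ (range m).image (fun i => i + 1), p.parts.count a • a := by
    apply Finset.sum_subset
    · intro a ha
      rw [Multiset.mem_toFinset] at ha
      have h3 : 0 < a := p.parts_pos ha
      have h4 : a ≤ m := by
        rw [← p.parts_sum]
        exact Multiset.le_sum_of_mem ha
      rw [Finset.mem_image]
      exact ⟨a - 1, by rw [mem_range]; omega, by omega⟩
    · intro a _ ha
      rw [Multiset.mem_toFinset] at ha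
      rw [Multiset.count_eq_zero_of_notMem ha, zero_smul]
  rw [h2, Finset.sum_image (fun a _ b _ h => Nat.succ_injective h), Finset.sum_range] at h1
  refine Eq.trans (Finset.sum_congr rfl fun i _ => ?_) h1
  unfold cnt
  rw [smul_eq_mul, mul_comm]

theorem cnt_le (m : ℕ) (p : m.Partition) (i : Fin m) : cnt m p i ≤ m := by
  have h := cnt_sum m p
  have h1 : ((i : ℕ) + 1) * cnt m p i ≤ m := by
    calc ((i : ℕ) + 1) * cnt m p i ≤ ∑ i : Fin m, ((i : ℕ) + 1) * cnt m p i :=
          Finset.single_le_sum (f := fun i : Fin m => ((i : ℕ) + 1) * cnt m p i)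
            (fun _ _ => Nat.zero_le _) (mem_univ i)
      _ = m := h
  nlinarith

theorem cnt_inj (m : ℕ) : Function.Injective (cnt m) := by
  intro p q h
  apply Nat.Partition.ext
  ext a
  by_cases h0 : a = 0
  · subst h0
    rw [Multiset.count_eq_zero_of_notMem fun h => absurd (p.parts_pos h) (lt_irrefl 0),
      Multiset.count_eq_zero_of_notMem fun h => absurd (q.parts_pos h) (lt_irrefl 0)]
  by_cases h1 : a ≤ m
  · have h2 := congrFun h ⟨a - 1, by omega⟩
    unfold cnt at h2
    simp only at h2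
    rw [show a - 1 + 1 = a by omega] at h2
    exact h2
  · have h3 : ∀ r : m.Partition, a ∉ r.parts := by
      intro r hr
      have := Multiset.le_sum_of_mem hr
      rw [r.parts_sum] at this
      exact h1 this
    rw [Multiset.count_eq_zero_of_notMem (h3 p), Multiset.count_eq_zero_of_notMem (h3 q)]

theorem geo (n : ℕ) (y : ℝ) (h0 : 0 ≤ y) (h1 : y < 1) : ∑ j ∈ range n, y ^ j ≤ (1 - y)⁻¹ := by
  have h := geom_sum_mul_neg y n
  have h2 : 0 < 1 - y := by linarith
  rw [← one_div, le_div_iff₀ h2, h]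
  have : 0 ≤ y ^ n := by positivity
  linarith

/-- the generating function bound -/
theorem gen (m : ℕ) (x : ℝ) (h0 : 0 < x) (h1 : x < 1) :
    (Fintype.card m.Partition : ℝ) * x ^ m ≤ ∏ i : Fin m, (1 - x ^ ((i : ℕ) + 1))⁻¹ := by
  classical
  have e1 : (Fintype.card m.Partition : ℝ) * x ^ m =
      ∑ p : m.Partition, ∏ i : Fin m, (x ^ ((i : ℕ) + 1)) ^ (cnt m p i) := by
    rw [Finset.sum_congr rfl (g := fun _ => x ^ m), sum_const, card_univ, nsmul_eq_mul]
    intro p _
    calc ∏ i : Fin m, (x ^ ((i : ℕ) + 1)) ^ (cnt m p i)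
        = ∏ i : Fin m, x ^ (((i : ℕ) + 1) * cnt m p i) :=
          Finset.prod_congr rfl fun i _ => by rw [pow_mul]
      _ = x ^ m := by rw [Finset.prod_pow_eq_pow_sum, cnt_sum]
  have e2 : ∑ p : m.Partition, ∏ i : Fin m, (x ^ ((i : ℕ) + 1)) ^ (cnt m p i) ≤
      ∑ c ∈ Fintype.piFinset (fun _ : Fin m => range (m + 1)),
        ∏ i : Fin m, (x ^ ((i : ℕ) + 1)) ^ (c i) := by
    have e3 : ∑ p : m.Partition, ∏ i : Fin m, (x ^ ((i : ℕ) + 1)) ^ (cnt m p i) =
        ∑ c ∈ (univ : Finset m.Partition).image (cnt m),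
          ∏ i : Fin m, (x ^ ((i : ℕ) + 1)) ^ (c i) := by
      rw [Finset.sum_image]
      exact fun a _ b _ h => cnt_inj m h
    rw [e3]
    apply Finset.sum_le_sum_of_subset_of_nonneg
    · intro c hc
      rw [Finset.mem_image] at hc
      obtain ⟨p, _, rfl⟩ := hc
      rw [Fintype.mem_piFinset]
      intro i
      rw [mem_range]
      have := cnt_le m p i
      omega
    · intro c _ _
      positivity
  rw [e1]
  refine le_trans e2 ?_
  rw [← Finset.prod_univ_sum (fun _ : Fin m => range (m + 1))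
    (fun i j => (x ^ ((i : ℕ) + 1)) ^ j)]
  apply Finset.prod_le_prod
  · intro i _
    positivity
  · intro i _
    exact geo _ _ (by positivity) (pow_lt_one₀ h0.le h1 (by omega))

/-- the logarithm of the product -/
theorem logsum (m : ℕ) (s : ℝ) (hs : 0 < s) :
    ∑ i : Fin m, -Real.log (1 - Real.exp (-s) ^ ((i : ℕ) + 1)) ≤ Real.pi ^ 2 / 6 / s := by
  have hx0 : 0 < Real.exp (-s) := Real.exp_pos _
  have hx1 : Real.exp (-s) < 1 := by
    rw [Real.exp_lt_one_iff]; linarith
  have h1 : HasSum (fun r : ℕ => ∑ i : Fin m, (Real.exp (-s) ^ ((i : ℕ) + 1)) ^ (r + 1) / (r + 1))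
      (∑ i : Fin m, -Real.log (1 - Real.exp (-s) ^ ((i : ℕ) + 1))) := by
    apply hasSum_sum
    intro i _
    apply Real.hasSum_pow_div_log_of_abs_lt_one
    rw [abs_of_pos (by positivity)]
    exact pow_lt_one₀ hx0.le hx1 (by omega)
  have h2 : HasSum (fun r : ℕ => 1 / s * (1 / ((r : ℝ) + 1) ^ 2)) (1 / s * (Real.pi ^ 2 / 6)) := by
    apply HasSum.mul_left
    have h3 := (hasSum_nat_add_iff' 1).mpr hasSum_zeta_two
    simpa using h3
  have h4 := hasSum_le (fun r => ?_) h1 h2
  · refine le_trans h4 (le_of_eq ?_)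
    field_simp
  · -- the terms
    have hr : (0 : ℝ) < r + 1 := by positivity
    set u : ℝ := s * (r + 1) with hu
    have hu0 : 0 < u := by positivity
    set z : ℝ := Real.exp (-u) with hz
    have hz0 : 0 < z := Real.exp_pos _
    have hz1 : z < 1 := by
      rw [hz, Real.exp_lt_one_iff]; linarith
    have hzx : Real.exp (-s) ^ (r + 1) = z := by
      rw [hz, ← Real.exp_nat_mul]
      congr 1
      push_cast
      rw [hu]; ring
    have e1 : ∑ i : Fin m, (Real.exp (-s) ^ ((i : ℕ) + 1)) ^ (r + 1) / ((r : ℝ) + 1) =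
        (∑ i ∈ range m, z ^ i) * z / (r + 1) := by
      rw [Finset.sum_range, Finset.sum_mul, Finset.sum_div]
      refine Finset.sum_congr rfl fun i _ => ?_
      rw [← pow_mul, mul_comm ((i : ℕ) + 1) (r + 1), pow_mul, hzx, pow_succ]
    rw [e1]
    have e2 : (∑ i ∈ range m, z ^ i) * z ≤ 1 / u := by
      have h5 : (∑ i ∈ range m, z ^ i) * z ≤ (1 - z)⁻¹ * z :=
        mul_le_mul_of_nonneg_right (geo m z hz0.le hz1) hz0.le
      refine le_trans h5 ?_
      rw [inv_mul_eq_div, div_le_div_iff₀ (by linarith) hu0]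
      have h6 : z * (u + 1) ≤ 1 := by
        calc z * (u + 1) ≤ z * Real.exp u :=
              mul_le_mul_of_nonneg_left (Real.add_one_le_exp u) hz0.le
          _ = 1 := by rw [hz, ← Real.exp_add]; simp
      linarith
    calc (∑ i ∈ range m, z ^ i) * z / ((r : ℝ) + 1) ≤ 1 / u / (r + 1) :=
          div_le_div_of_nonneg_right e2 hr.le
      _ = 1 / s * (1 / ((r : ℝ) + 1) ^ 2) := by
          rw [hu]; field_simp

theorem card_partition (m : ℕ) :
    (Fintype.card m.Partition : ℝ) ≤ Real.exp (27 / 10 * Real.sqrt m) := by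
  rcases Nat.eq_zero_or_pos m with rfl | hm
  · have : Fintype.card (Nat.Partition 0) ≤ 1 :=
      Fintype.card_le_one_iff_subsingleton.2 inferInstance
    have h1 : (Fintype.card (Nat.Partition 0) : ℝ) ≤ 1 := by exact_mod_cast this
    refine le_trans h1 ?_
    rw [← Real.exp_zero]
    apply Real.exp_le_exp.2
    positivity
  obtain ⟨t, ht⟩ : ∃ t, t = Real.sqrt m := ⟨_, rfl⟩
  have hmR : (0 : ℝ) < m := by exact_mod_cast hm
  have ht0 : 0 < t := by rw [ht]; exact Real.sqrt_pos.2 hmR
  have htm : t * t = m := by rw [ht]; exact Real.mul_self_sqrt hmR.le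
  obtain ⟨s, hs⟩ : ∃ s, s = 4 / 3 / t := ⟨_, rfl⟩
  have hs0 : 0 < s := by rw [hs]; positivity
  have hx0 : 0 < Real.exp (-s) := Real.exp_pos _
  have hx1 : Real.exp (-s) < 1 := by
    rw [Real.exp_lt_one_iff]; linarith
  have h1 := gen m (Real.exp (-s)) hx0 hx1
  have h2 := logsum m s hs0
  have h3 : ∏ i : Fin m, (1 - Real.exp (-s) ^ ((i : ℕ) + 1))⁻¹ =
      Real.exp (∑ i : Fin m, -Real.log (1 - Real.exp (-s) ^ ((i : ℕ) + 1))) := by
    rw [Real.exp_sum]
    refine Finset.prod_congr rfl fun i _ => ?_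
    have h4 : 0 < 1 - Real.exp (-s) ^ ((i : ℕ) + 1) := by
      have := pow_lt_one₀ hx0.le hx1 (show (i : ℕ) + 1 ≠ 0 by omega)
      linarith
    rw [Real.exp_neg (Real.log _), Real.exp_log h4]
  have h5 : Real.exp (-s) ^ m = Real.exp (-(s * m)) := by
    rw [← Real.exp_nat_mul]
    congr 1
    ring
  rw [h3, h5] at h1
  have h6 : (Fintype.card m.Partition : ℝ) ≤ Real.exp (s * m + Real.pi ^ 2 / 6 / s) := by
    have h7 : (Fintype.card m.Partition : ℝ) * Real.exp (-(s * m)) ≤
        Real.exp (Real.pi ^ 2 / 6 / s) := le_trans h1 (Real.exp_le_exp.2 h2)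
    calc (Fintype.card m.Partition : ℝ)
        = (Fintype.card m.Partition : ℝ) * Real.exp (-(s * m)) * Real.exp (s * m) := by
          rw [mul_assoc, ← Real.exp_add]; simp
      _ ≤ Real.exp (Real.pi ^ 2 / 6 / s) * Real.exp (s * m) :=
          mul_le_mul_of_nonneg_right h7 (Real.exp_pos _).le
      _ = Real.exp (s * m + Real.pi ^ 2 / 6 / s) := by rw [← Real.exp_add, add_comm]
  refine le_trans h6 (Real.exp_le_exp.2 ?_)
  have h8 : Real.pi < 3.15 := Real.pi_lt_d2
  have h9 : Real.pi ^ 2 ≤ 9.9225 := by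
    have := Real.pi_pos
    nlinarith
  have h10 : s * m = 4 / 3 * t := by
    rw [hs, ← htm]; field_simp
  have h11 : Real.pi ^ 2 / 6 / s = Real.pi ^ 2 / 8 * t := by
    rw [hs]; field_simp; ring
  rw [h10, h11, ← ht]
  nlinarith

theorem pf_PAR (_KSN : T_KSN) : T_PAR := by
  intro m
  have hinj : Function.Injective
      (fun c : ConjClasses (Equiv.Perm (Fin m)) =>
        (Quotient.liftOn c (fun g : Equiv.Perm (Fin m) => g.partition)
          (fun a b h => Equiv.Perm.partition_eq_of_isConj.1 h) :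
          (Fintype.card (Fin m)).Partition)) := by
    intro a b
    refine Quotient.inductionOn₂ a b ?_
    intro g h hgh
    exact Quotient.sound (Equiv.Perm.partition_eq_of_isConj.2 hgh)
  have h1 : Nat.card (ConjClasses (Equiv.Perm (Fin m))) ≤
      Nat.card (Fintype.card (Fin m)).Partition := Nat.card_le_card_of_injective _ hinj
  rw [Fintype.card_fin, Nat.card_eq_fintype_card (α := m.Partition)] at h1
  have h2 : (kc (Equiv.Perm (Fin m)) : ℝ) ≤ (Fintype.card m.Partition : ℝ) := by exact_mod_cast h1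
  exact le_trans h2 (card_partition m)

end Pool.Agent.H74.FCN
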